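import Pool.Agent.Helper717.Hull6

set_option autoImplicit false

namespace Pool.Agent.Results.MP_9d21cc_co.TriangleAreaHull

open MeasureTheory Pool.Agent.Helper717.Hull1 Pool.Agent.Helper717.Hull2
  Pool.Agent.Helper717.Hull6

/-- Area of the (possibly degenerate) triangle with vertices `p`, `q`, `r`: half the absolute
value of the determinant of `q - p` and `r - p`. -/
noncomputable def triArea (p q r : EuclideanSpace ℝ (Fin 2)) : ℝ :=
  1 / 2 * |(q 0 - p 0) * (r 1 - p 1) - (q 1 - p 1) * (r 0 - p 0)|

lemma triArea_or (p q r : EuclideanSpace ℝ (Fin 2)) : triArea p q r = 1 / 2 * |orient p q r| := rfl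

lemma triArea_swap12 (p q r : EuclideanSpace ℝ (Fin 2)) : triArea q p r = triArea p q r := by
  rw [triArea_or, triArea_or, or_swap, abs_neg]

lemma triArea_swap23 (p q r : EuclideanSpace ℝ (Fin 2)) : triArea p r q = triArea p q r := by
  rw [triArea_or, triArea_or, or_swap', abs_neg]

/-- Sanity check: `triArea` is the Lebesgue area of the triangle. -/
lemma volume_triangle (p q r : EuclideanSpace ℝ (Fin 2)) :
    volume (convexHull ℝ ({p, q, r} : Set (EuclideanSpace ℝ (Fin 2)))) =
      ENNReal.ofReal (triArea p q r) := by
  by_cases h : orient p q r = 0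
  · rw [triArea_or, h, abs_zero, mul_zero, ENNReal.ofReal_zero]
    have hline : ∀ a b : EuclideanSpace ℝ (Fin 2), a ≠ b →
        (∀ s ∈ ({p, q, r} : Set (EuclideanSpace ℝ (Fin 2))), orient a b s = 0) →
        volume (convexHull ℝ ({p, q, r} : Set (EuclideanSpace ℝ (Fin 2)))) = 0 := by
      intro a b hab hs
      refine measure_mono_null ?_ (line_null a b hab)
      intro z hz
      have h1 : convexHull ℝ ({p, q, r} : Set (EuclideanSpace ℝ (Fin 2))) ⊆
          {z | 0 ≤ orient a b z} := convexHull_min (fun s hs' => (hs s hs').ge) (half_convex a b)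
      have h2 : convexHull ℝ ({p, q, r} : Set (EuclideanSpace ℝ (Fin 2))) ⊆
          {z | orient a b z ≤ 0} := convexHull_min (fun s hs' => (hs s hs').le) (half_convex' a b)
      exact le_antisymm (h2 hz) (h1 hz)
    by_cases hpq : p = q
    · by_cases hpr : p = r
      · rw [← hpq, ← hpr]
        simp
      · apply hline p r hpr
        intro s hs
        simp only [Set.mem_insert_iff, Set.mem_singleton_iff] at hs
        rcases hs with rfl | rfl | rfl
        · exact or_self3 _ _
        · rw [hpq]; exact or_self3 _ _
        · exact or_self2 _ _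
    · apply hline p q hpq
      intro s hs
      simp only [Set.mem_insert_iff, Set.mem_singleton_iff] at hs
      rcases hs with rfl | rfl | rfl
      · exact or_self3 _ _
      · exact or_self2 _ _
      · exact h
  · rw [tri_vol p q r h, triArea_or]
    congr 1
    ring

/-- If every triangle of the list `x` has at least the area of the corresponding triangle of the
list `y`, then the convex hull of the `x i` has at least the area of the convex hull of
the `y i`. -/
theorem result (n : ℕ) (x y : Fin n → EuclideanSpace ℝ (Fin 2))
    (hT : ∀ i j k : Fin n, i ≤ j → j ≤ k → triArea (y i) (y j) (y k) ≤ triArea (x i) (x j) (x k)) :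
    volume (convexHull ℝ (Set.range y)) ≤ volume (convexHull ℝ (Set.range x)) := by
  have hall : ∀ i j k : Fin n, triArea (y i) (y j) (y k) ≤ triArea (x i) (x j) (x k) := by
    intro i j k
    rcases le_total i j with h1 | h1 <;> rcases le_total j k with h2 | h2 <;>
      rcases le_total i k with h3 | h3
    · exact hT i j k h1 h2
    · exact hT i j k h1 h2
    · rw [← triArea_swap23 (y i), ← triArea_swap23 (x i)]
      exact hT i k j h3 h2
    · rw [← triArea_swap23 (y i), ← triArea_swap23 (x i), ← triArea_swap12 (y i),
        ← triArea_swap12 (x i)]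
      exact hT k i j h3 h1
    · rw [← triArea_swap12 (y i), ← triArea_swap12 (x i)]
      exact hT j i k h1 h3
    · rw [← triArea_swap12 (y i), ← triArea_swap12 (x i), ← triArea_swap23 (y j),
        ← triArea_swap23 (x j)]
      exact hT j k i h2 h3
    · rw [← triArea_swap12 (y i), ← triArea_swap12 (x i), ← triArea_swap23 (y j),
        ← triArea_swap23 (x j), ← triArea_swap12 (y j), ← triArea_swap12 (x j)]
      have hik : i = k := le_antisymm h3 (h2.trans h1)
      exact hT k j i h2 h1
    · rw [← triArea_swap12 (y i), ← triArea_swap12 (x i), ← triArea_swap23 (y j),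
        ← triArea_swap23 (x j), ← triArea_swap12 (y j), ← triArea_swap12 (x j)]
      exact hT k j i h2 h1
  apply main x y
  intro i j k
  have := hall i j k
  rw [triArea_or, triArea_or] at this
  linarith

end Pool.Agent.Results.MP_9d21cc_co.TriangleAreaHull
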